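import Pool.Agent.helper747_sp.Lower

/-!
# Rational matrix functions that commute with conjugation
-/

set_option autoImplicit false

namespace Pool.Agent.helper747_mf

open MvPolynomial Matrix
open Pool.Agent.H53R3 (SLPComputes IsSLP affS Hs Q2 S2 slp_derivatives Q2_repr)
open Pool.Agent.helper747_sp

section

variable {n : ℕ}

/-- the value at `A` of a matrix of polynomials -/
noncomputable def mv (N : Fin n → Fin n → Pol n) (A : Mt n) : Mt n :=
  Matrix.of fun i j => val (N i j) A

/-- the value `N (A) / D (A)` of a rational matrix function at a matrix `A` with `D (A) ≠ 0` -/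
noncomputable def fn (N : Fin n → Fin n → Pol n) (D : Pol n) (A : Mt n) : Mt n :=
  (val D A)⁻¹ • mv N A

/-- The rational matrix function `F (A) = N (A) / D (A)` satisfies `F (g A h) = g F (A) h` for
`g h = 1` at all matrices where it is defined. -/
def Equivariant (N : Fin n → Fin n → Pol n) (D : Pol n) : Prop :=
  ∀ g h A : Mt n, g * h = 1 → val D A ≠ 0 → val D (g * A * h) ≠ 0 →
    fn N D (g * A * h) = g * fn N D A * h

theorem val_mul (p q : Pol n) (A : Mt n) : val (p * q) A = val p A * val q A := map_mul _ _ _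

theorem val_sum {ι : Type} (s : Finset ι) (u : ι → Pol n) (A : Mt n) :
    val (∑ i ∈ s, u i) A = ∑ i ∈ s, val (u i) A := map_sum _ _ _

theorem exists_val_ne {v : Pol n} (hv : v ≠ 0) : ∃ A, val v A ≠ 0 := by
  by_contra hcon
  push Not at hcon
  exact hv (pol_ext fun A => by rw [hcon A]; simp [val])

theorem sb_ne {g h : Mt n} (hgh : g * h = 1) {v : Pol n} (hv : v ≠ 0) : sb g h v ≠ 0 := by
  intro h0
  obtain ⟨A, hA⟩ := exists_val_ne hv
  have hhg : h * g = 1 := mul_eq_one_comm.1 hgh
  have h1 : val (sb g h v) (h * A * g) = val v A := by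
    rw [val_sb]
    congr 1
    calc g * (h * A * g) * h = (g * h) * A * (g * h) := by simp only [mul_assoc]
      _ = A := by rw [hgh, one_mul, mul_one]
  rw [h0] at h1
  apply hA
  rw [← h1]
  simp [val]

/-- the matrix `g N h` -/
noncomputable def gNh (g h : Mt n) (N : Fin n → Fin n → Pol n) (i j : Fin n) : Pol n :=
  ∑ a, ∑ b, C (g i a * h b j) * N a b

theorem val_gNh (g h : Mt n) (N : Fin n → Fin n → Pol n) (i j : Fin n) (A : Mt n) :
    val (gNh g h N i j) A = (g * mv N A * h) i j := by
  rw [mul3_apply, gNh, val_sum]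
  refine Finset.sum_congr rfl fun a _ => ?_
  rw [val_sum]
  refine Finset.sum_congr rfl fun b _ => ?_
  rw [val_Cmul]
  rfl

/-- Equivariance as an identity of polynomials. -/
theorem Equivariant.poly {N : Fin n → Fin n → Pol n} {D : Pol n} (hF : Equivariant N D)
    (hD : D ≠ 0) {g h : Mt n} (hgh : g * h = 1) (i j : Fin n) :
    D * sb g h (N i j) = sb g h D * gNh g h N i j := by
  have h1 : (D * sb g h D) * (D * sb g h (N i j) - sb g h D * gNh g h N i j) = 0 := by
    refine pol_ext fun A => ?_
    rw [val_mul, val_mul, val_sub, val_mul, val_mul, val_sb, val_sb, val_gNh]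
    have h0 : val (0 : Pol n) A = 0 := by simp [val]
    rw [h0]
    by_cases e1 : val D A = 0
    · rw [e1]; ring
    by_cases e2 : val D (g * A * h) = 0
    · rw [e2]; ring
    have h2 := congrFun (congrFun (hF g h A hgh e1 e2) i) j
    unfold fn at h2
    rw [mul_smul_comm, smul_mul_assoc, Matrix.smul_apply, Matrix.smul_apply, smul_eq_mul,
      smul_eq_mul] at h2
    have h3 : mv N (g * A * h) i j = val (N i j) (g * A * h) := rfl
    rw [h3] at h2
    field_simp at h2
    linear_combination (val D A * val D (g * A * h)) * h2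
  rcases mul_eq_zero.1 h1 with h2 | h2
  · exact absurd h2 (mul_ne_zero hD (sb_ne hgh hD))
  · exact sub_eq_zero.1 h2

/-- the second derivative of `N / D`, multiplied by `D ^ 3` -/
noncomputable def F2 (N D : Pol n) (Y Z : Mt n) : Pol n :=
  D * (dd Y D * dd Z N + D * dd Y (dd Z N) - dd Y N * dd Z D - N * dd Y (dd Z D)) -
    2 * dd Y D * (D * dd Z N - N * dd Z D)

/-- If `N = D G` to second order then `F2 = D ^ 3 G''`. -/
theorem F2_alg {R : Type} [CommRing R] {d dy dz dyz m my mz myz G Gy Gz Gyz : R}
    (e0 : m = d * G) (e1 : my = dy * G + d * Gy) (e2 : mz = dz * G + d * Gz)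
    (e3 : myz = dyz * G + dy * Gz + dz * Gy + d * Gyz) :
    d * (dy * mz + d * myz - my * dz - m * dyz) - 2 * dy * (d * mz - m * dz) = d ^ 3 * Gyz := by
  rw [e0, e1, e2, e3]
  ring

theorem dd_mul (Y : Mt n) (p q : Pol n) : dd Y (p * q) = dd Y p * q + p * dd Y q := by
  rw [Derivation.leibniz, smul_eq_mul, smul_eq_mul]
  ring

/-- Two representations of the same rational function. -/
theorem F2_congr {N D N' D' : Pol n} (h : D * N' = D' * N) (A Y Z : Mt n) (hD : val D A ≠ 0) :
    val D A ^ 3 * val (F2 N' D' Y Z) A = val D' A ^ 3 * val (F2 N D Y Z) A := by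
  have hy := congrArg (dd Y) h
  have hz := congrArg (dd Z) h
  have hyz := congrArg (fun p => dd Y (dd Z p)) h
  rw [dd_mul, dd_mul] at hy hz
  simp only [dd_mul, map_add] at hyz
  have v0 := congrArg (fun p => val p A) h
  have vy := congrArg (fun p => val p A) hy
  have vz := congrArg (fun p => val p A) hz
  have vyz := congrArg (fun p => val p A) hyz
  simp only [val_mul, val_add] at v0 vy vz vyz
  have h2 : ∀ p : Pol n, val (2 * p) A = 2 * val p A := fun p => by
    rw [val_mul]; congr 1; simp [val]
  simp only [F2, val_sub, val_add, val_mul, mul_assoc, h2]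
  set d := val D A with hd
  set dy := val (dd Y D) A
  set dz := val (dd Z D) A
  set dyz := val (dd Y (dd Z D)) A
  set G := val N A / d with hG
  set Gy := (val (dd Y N) A - dy * G) / d with hGy
  set Gz := (val (dd Z N) A - dz * G) / d with hGz
  set Gyz := (val (dd Y (dd Z N)) A - dyz * G - dy * Gz - dz * Gy) / d with hGyz
  have e0 : val N A = d * G := by rw [hG]; field_simp
  have e1 : val (dd Y N) A = dy * G + d * Gy := by rw [hGy]; field_simp; ring
  have e2 : val (dd Z N) A = dz * G + d * Gz := by rw [hGz]; field_simp; ring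
  have e3 : val (dd Y (dd Z N)) A = dyz * G + dy * Gz + dz * Gy + d * Gyz := by
    rw [hGyz]; field_simp; ring
  have f0 : val N' A = val D' A * G := by
    apply mul_left_cancel₀ hD
    rw [v0, e0]; ring
  have f1 : val (dd Y N') A = val (dd Y D') A * G + val D' A * Gy := by
    apply mul_left_cancel₀ hD
    linear_combination vy - dy * f0 + (val (dd Y D') A) * e0 + (val D' A) * e1
  have f2 : val (dd Z N') A = val (dd Z D') A * G + val D' A * Gz := by
    apply mul_left_cancel₀ hD
    linear_combination vz - dz * f0 + (val (dd Z D') A) * e0 + (val D' A) * e2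
  have f3 : val (dd Y (dd Z N')) A = val (dd Y (dd Z D')) A * G + val (dd Y D') A * Gz +
      val (dd Z D') A * Gy + val D' A * Gyz := by
    apply mul_left_cancel₀ hD
    linear_combination vyz - dyz * f0 - dz * f1 - dy * f2 + (val (dd Y (dd Z D')) A) * e0 +
      (val (dd Z D') A) * e1 + (val (dd Y D') A) * e2 + (val D' A) * e3
  have k1 := F2_alg e0 e1 e2 e3
  have k2 := F2_alg f0 f1 f2 f3
  linear_combination d ^ 3 * k2 - (val D' A) ^ 3 * k1

/-- the second derivative as a bilinear form -/
theorem F2_bilin (N D : Pol n) (A Y Z : Mt n) : val (F2 N D Y Z) A =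
    ∑ a : Fin n × Fin n, ∑ b : Fin n × Fin n,
      val (F2 N D (E a.1 a.2) (E b.1 b.2)) A * Z b.1 b.2 * Y a.1 a.2 := by
  have h2 : ∀ p : Pol n, val (2 * p) A = 2 * val p A := fun p => by
    rw [val_mul]; congr 1; simp [val]
  have hs : ∀ (p : Pol n) (a : Fin n × Fin n), val (dd (E a.1 a.2) p) A = val (pderiv a p) A := by
    intro p a
    rw [dd_single]
  have hs2 : ∀ (p : Pol n) (a b : Fin n × Fin n), val (dd (E a.1 a.2) (dd (E b.1 b.2) p)) A =
      val (pderiv a (pderiv b p)) A := by
    intro p a b
    rw [dd_single, dd_single]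
  simp only [F2, val_sub, val_add, val_mul, mul_assoc, h2, hs2]
  simp only [hs]
  have k1 : ∀ (p : Pol n) (W : Mt n), val (dd W p) A = ∑ a, val (pderiv a p) A * W a.1 a.2 :=
    fun p W => val_dd W p A
  have k2 : ∀ p : Pol n, val (dd Y (dd Z p)) A =
      ∑ a : Fin n × Fin n, ∑ b : Fin n × Fin n,
        val (pderiv a (pderiv b p)) A * Z b.1 b.2 * Y a.1 a.2 := by
    intro p
    rw [val_dd]
    refine Finset.sum_congr rfl fun a _ => ?_
    rw [pderiv_dd, val_dd, Finset.sum_mul]
    refine Finset.sum_congr rfl fun b _ => ?_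
    have hc : pderiv b (pderiv a p) = pderiv a (pderiv b p) := by
      rw [← dd_single, ← dd_single, ← dd_single, ← dd_single, dd_comm]
    rw [hc]
  have k3 : ∀ (p q : Pol n), val (dd Y p) A * val (dd Z q) A =
      ∑ a : Fin n × Fin n, ∑ b : Fin n × Fin n,
        (val (pderiv a p) A * val (pderiv b q) A) * Z b.1 b.2 * Y a.1 a.2 := by
    intro p q
    rw [k1, k1, Finset.sum_mul_sum]
    refine Finset.sum_congr rfl fun a _ => Finset.sum_congr rfl fun b _ => ?_
    ring
  have k4 : val D A * (val (dd Y D) A * val (dd Z N) A + val D A * val (dd Y (dd Z N)) A -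
      val (dd Y N) A * val (dd Z D) A - val N A * val (dd Y (dd Z D)) A) -
      2 * (val (dd Y D) A * (val D A * val (dd Z N) A - val N A * val (dd Z D) A)) =
      val D A * (val (dd Y D) A * val (dd Z N) A) + val D A * (val D A * val (dd Y (dd Z N)) A) -
      val D A * (val (dd Y N) A * val (dd Z D) A) - val D A * (val N A * val (dd Y (dd Z D)) A) -
      2 * (val D A * (val (dd Y D) A * val (dd Z N) A)) +
      2 * (val N A * (val (dd Y D) A * val (dd Z D) A)) := by
    ring
  rw [k4, k3, k3, k3, k2, k2]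
  simp only [Finset.mul_sum, ← Finset.sum_add_distrib, ← Finset.sum_sub_distrib]
  refine Finset.sum_congr rfl fun a _ => Finset.sum_congr rfl fun b _ => ?_
  ring

end

end Pool.Agent.helper747_mf
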