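import Pool.Agent.helper747_mf.Base

/-!
# Second derivatives of computed rational functions
-/

set_option autoImplicit false

namespace Pool.Agent.helper747_mf

open MvPolynomial Matrix
open Pool.Agent.H53R3 (SLPComputes IsSLP affS Hs Q2 S2 slp_derivatives Q2_repr)
open Pool.Agent.helper747_sp

section

variable {n : ℕ}

/-- polynomials as rational functions -/
noncomputable abbrev al : Pol n →+* Rf (Fin n × Fin n) :=
  algebraMap (Pol n) (Rf (Fin n × Fin n))

theorem al_inj : Function.Injective (al (n := n)) := IsFractionRing.injective _ _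

/-- All entries of the rational matrix function `N / D` are computed from the entries of the matrix
by a straight-line program in the field of rational functions with `L` multiplications and
divisions; additions and multiplications by complex numbers are not counted. -/
def Comp (N : Fin n → Fin n → Pol n) (D : Pol n) (L : ℕ) : Prop :=
  SLPComputes (fun k : Fin (n * n) => xr (finProdFinEquiv.symm k)) L
    (Set.range fun p : Fin n × Fin n => al (N p.1 p.2) / al D)

theorem F2_dr {N D : Pol n} (hD : D ≠ 0) (a b : Fin n × Fin n) :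
    al D ^ 3 * dr a (dr b (al N / al D)) = al (F2 N D (E a.1 a.2) (E b.1 b.2)) := by
  have hD' : al D ≠ 0 := fun h => hD (al_inj (by rw [h, map_zero]))
  set z := al N / al D with hz
  have e0 : al N = al D * z := (mul_div_cancel₀ _ hD').symm
  have e1 : al (pderiv a N) = al (pderiv a D) * z + al D * dr a z := by
    rw [← dr_poly, e0, (isDer_dr a).mul, dr_poly]
  have e2 : al (pderiv b N) = al (pderiv b D) * z + al D * dr b z := by
    rw [← dr_poly, e0, (isDer_dr b).mul, dr_poly]
  have e3 : al (pderiv a (pderiv b N)) = al (pderiv a (pderiv b D)) * z +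
      al (pderiv a D) * dr b z + al (pderiv b D) * dr a z + al D * dr a (dr b z) := by
    rw [← dr_poly, e2, (isDer_dr a).add, (isDer_dr a).mul, (isDer_dr a).mul, dr_poly, dr_poly]
    ring
  have k := F2_alg e0 e1 e2 e3
  rw [← k]
  simp only [F2, dd_single, RingHom.map_sub, RingHom.map_add, RingHom.map_mul]
  have h2 : al (2 : Pol n) = 2 := map_ofNat _ _
  rw [h2]

theorem second_slp {N : Fin n → Fin n → Pol n} {D : Pol n} (hD : D ≠ 0) {L : ℕ}
    (hL : Comp N D L) :
    ∃ d : Pol n, d ≠ 0 ∧ ∀ A, val d A ≠ 0 →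
      ∃ (c : Fin L → Fin n → Fin n → ℂ) (p q : Fin L → Fin n × Fin n → ℂ), ∀ i j (Y Z : Mt n),
        val (F2 (N i j) D Y Z) A =
          ∑ k, c k i j * (lf (p k) Y * lf (q k) Z + lf (q k) Y * lf (p k) Z) := by
  classical
  obtain ⟨g, hg, hgu⟩ := hL
  obtain ⟨p, q, hpq⟩ := slp_derivatives (fun k : Fin (n * n) => dr (finProdFinEquiv.symm k))
    (fun k => isDer_dr _) (fun k => dr_algebraMap _)
    (fun k : Fin (n * n) => xr (finProdFinEquiv.symm k)) (fun i j l => dr_dr_xr _ _ _) L g hg
  have hc : ∀ s : Fin n × Fin n, ∃ c : ℕ → Rf (Fin n × Fin n),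
      Hs (fun k : Fin (n * n) => dr (finProdFinEquiv.symm k)) (al (N s.1 s.2) / al D) =
        ∑ k ∈ Finset.range L, c k • S2 (p k) (q k) := fun s =>
    Q2_repr p q (hpq L le_rfl _ (hgu _ ⟨s, rfl⟩)).1
  choose c hc using hc
  obtain ⟨d, hd0, hd⟩ := exists_denom
    (((Finset.range L) ×ˢ (Finset.univ : Finset (Fin n × Fin n))).image (fun z => c z.2 z.1) ∪
    (((Finset.range L) ×ˢ (Finset.univ : Finset (Fin (n * n)))).image (fun z => p z.1 z.2) ∪
    ((Finset.range L) ×ˢ (Finset.univ : Finset (Fin (n * n)))).image (fun z => q z.1 z.2)))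
  have hC : ∀ (k : Fin L) (s : Fin n × Fin n), ∃ P : Pol n, al P = al d * c s k :=
    fun k s => hd _ (Finset.mem_union_left _ (Finset.mem_image.mpr ⟨((k : ℕ), s), by simp, rfl⟩))
  have hPp : ∀ (k : Fin L) (i : Fin n × Fin n), ∃ P : Pol n, al P =
      al d * p k (finProdFinEquiv i) := fun k i => hd _
    (Finset.mem_union_right _ (Finset.mem_union_left _
      (Finset.mem_image.mpr ⟨((k : ℕ), finProdFinEquiv i), by simp, rfl⟩)))
  have hQ : ∀ (k : Fin L) (i : Fin n × Fin n), ∃ P : Pol n, al P =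
      al d * q k (finProdFinEquiv i) := fun k i => hd _
    (Finset.mem_union_right _ (Finset.mem_union_right _
      (Finset.mem_image.mpr ⟨((k : ℕ), finProdFinEquiv i), by simp, rfl⟩)))
  choose Cp hCp using hC
  choose Pp hPp using hPp
  choose Qp hQp using hQ
  have hpoly : ∀ s a b : Fin n × Fin n, d ^ 3 * F2 (N s.1 s.2) D (E a.1 a.2) (E b.1 b.2) =
      D ^ 3 * ∑ k : Fin L, Cp k s * (Pp k a * Qp k b + Pp k b * Qp k a) := by
    intro s a b
    apply al_inj
    have h1 := congrFun (congrFun (hc s) (finProdFinEquiv a)) (finProdFinEquiv b)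
    simp only [Hs, S2, Finset.sum_apply, Pi.smul_apply, smul_eq_mul,
      Equiv.symm_apply_apply] at h1
    rw [RingHom.map_mul, RingHom.map_mul, ← F2_dr hD, h1, map_sum, Finset.sum_range,
      RingHom.map_pow, RingHom.map_pow]
    rw [mul_left_comm, Finset.mul_sum]
    congr 1
    refine Finset.sum_congr rfl fun k _ => ?_
    simp only [RingHom.map_add, RingHom.map_mul, hCp, hPp, hQp]
    ring
  refine ⟨d, hd0, fun A hA => ?_⟩
  refine ⟨fun k i j => (val d A ^ 3)⁻¹ * (val D A ^ 3 * val (Cp k (i, j)) A),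
    fun k a => val (Pp k a) A, fun k a => val (Qp k a) A, fun i j Y Z => ?_⟩
  have hval : ∀ a b : Fin n × Fin n, val (F2 (N i j) D (E a.1 a.2) (E b.1 b.2)) A =
      ∑ k, (val d A ^ 3)⁻¹ * (val D A ^ 3 * val (Cp k (i, j)) A) *
        (val (Pp k a) A * val (Qp k b) A + val (Pp k b) A * val (Qp k a) A) := by
    intro a b
    have h1 := congrArg (fun P => val P A) (hpoly (i, j) a b)
    simp only [val, map_mul, map_pow, map_add, map_sum] at h1
    have h2 : val (F2 (N i j) D (E a.1 a.2) (E b.1 b.2)) A = (val d A ^ 3)⁻¹ *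
        (val d A ^ 3 * val (F2 (N i j) D (E a.1 a.2) (E b.1 b.2)) A) := by
      rw [inv_mul_cancel_left₀ (pow_ne_zero 3 hA)]
    rw [h2]
    simp only [val]
    rw [h1, Finset.mul_sum, Finset.mul_sum]
    refine Finset.sum_congr rfl fun k _ => ?_
    ring
  rw [F2_bilin]
  simp only [hval, Finset.sum_mul]
  calc _ = ∑ a : Fin n × Fin n, ∑ k, ∑ b : Fin n × Fin n, (val d A ^ 3)⁻¹ *
        (val D A ^ 3 * val (Cp k (i, j)) A) *
        (val (Pp k a) A * val (Qp k b) A + val (Pp k b) A * val (Qp k a) A) *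
        Z b.1 b.2 * Y a.1 a.2 := Finset.sum_congr rfl fun a _ => Finset.sum_comm
    _ = ∑ k, ∑ a : Fin n × Fin n, ∑ b : Fin n × Fin n, (val d A ^ 3)⁻¹ *
        (val D A ^ 3 * val (Cp k (i, j)) A) *
        (val (Pp k a) A * val (Qp k b) A + val (Pp k b) A * val (Qp k a) A) *
        Z b.1 b.2 * Y a.1 a.2 := Finset.sum_comm
    _ = _ := by
      refine Finset.sum_congr rfl fun k _ => ?_
      simp only [lf]
      rw [Finset.sum_mul_sum, Finset.sum_mul_sum, ← Finset.sum_add_distrib, Finset.mul_sum]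
      refine Finset.sum_congr rfl fun a _ => ?_
      rw [← Finset.sum_add_distrib, Finset.mul_sum]
      refine Finset.sum_congr rfl fun b _ => ?_
      ring

end

end Pool.Agent.helper747_mf
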