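import Pool.Agent.helper747_mf.Local
import Pool.Agent.helper747_mf.Slp2

/-!
# Matrix functions and matrix multiplication
-/

set_option autoImplicit false

namespace Pool.Agent.helper747_mf

open MvPolynomial Matrix
open Pool.Agent.helper747_sp
open Pool.Agent.H515R2.MMR

section

variable {n : ℕ}

/-- the polynomial that decides whether three indices can be used -/
noncomputable def VV (N : Fin n → Fin n → Pol n) (i j k : Fin n) : MvPolynomial (Fin n) ℂ :=
  (X j - X k) * gg (N i i) + (X k - X i) * gg (N j j) + (X i - X j) * gg (N k k)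

theorem eval_VV (N : Fin n → Fin n → Pol n) (i j k : Fin n) (x : Fin n → ℂ) : eval x (VV N i j k) =
    (x j - x k) * val (N i i) (Matrix.diagonal x) + (x k - x i) * val (N j j) (Matrix.diagonal x) +
      (x i - x j) * val (N k k) (Matrix.diagonal x) := by
  simp only [VV, map_add, map_mul, map_sub, eval_X, eval_gg]

/-- permutation matrices -/
theorem perm_mat (σ : Equiv.Perm (Fin n)) : ∃ g h : Mt n, g * h = 1 ∧
    ∀ (M : Mt n) (i j : Fin n), (g * M * h) i j = M (σ i) (σ j) := by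
  obtain ⟨g, hg⟩ : ∃ g : Mt n, ∀ i a, g i a = if σ i = a then 1 else 0 :=
    ⟨fun i a => if σ i = a then 1 else 0, fun _ _ => rfl⟩
  obtain ⟨h, hh⟩ : ∃ h : Mt n, ∀ b j, h b j = if σ j = b then 1 else 0 :=
    ⟨fun b j => if σ j = b then 1 else 0, fun _ _ => rfl⟩
  refine ⟨g, h, ?_, fun M i j => ?_⟩
  · ext i j
    rw [Matrix.mul_apply, Finset.sum_eq_single (σ i)]
    · rw [hg, hh, if_pos rfl, one_mul, Matrix.one_apply]
      by_cases hij : i = j
      · rw [if_pos hij, if_pos (by rw [hij])]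
      · rw [if_neg hij, if_neg fun h' => hij (σ.injective h').symm]
    · intro a _ ha
      rw [hg, if_neg (Ne.symm ha), zero_mul]
    · intro h'; exact absurd (Finset.mem_univ _) h'
  · rw [mul3_apply, Finset.sum_eq_single (σ i), Finset.sum_eq_single (σ j), hg, hh, if_pos rfl,
      if_pos rfl, one_mul, one_mul]
    · intro b _ hb
      rw [hh, if_neg (Ne.symm hb)]
      ring
    · intro h'; exact absurd (Finset.mem_univ _) h'
    · intro a _ ha
      refine Finset.sum_eq_zero fun b _ => ?_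
      rw [hg, if_neg (Ne.symm ha)]
      ring
    · intro h'; exact absurd (Finset.mem_univ _) h'

theorem VV_perm {N : Fin n → Fin n → Pol n} {D : Pol n} (hF : Equivariant N D) (hD : D ≠ 0)
    (hgg : gg D ≠ 0) (σ : Equiv.Perm (Fin n)) {i j k : Fin n} (h0 : VV N i j k = 0) :
    VV N (σ i) (σ j) (σ k) = 0 := by
  obtain ⟨g, h, hgh, hM⟩ := perm_mat σ
  have hdiag : ∀ x : Fin n → ℂ, g * Matrix.diagonal x * h = Matrix.diagonal (x ∘ σ) := by
    intro x
    ext i j
    rw [hM]
    by_cases hij : i = j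
    · rw [hij, Matrix.diagonal_apply_eq, Matrix.diagonal_apply_eq]
      rfl
    · rw [Matrix.diagonal_apply_ne _ hij, Matrix.diagonal_apply_ne _ fun h' => hij (σ.injective h')]
  have key : ∀ (x : Fin n → ℂ) (i : Fin n), val D (Matrix.diagonal x) *
      val (N i i) (Matrix.diagonal (x ∘ σ)) = val D (Matrix.diagonal (x ∘ σ)) *
        val (N (σ i) (σ i)) (Matrix.diagonal x) := by
    intro x i
    have h1 := congrArg (fun P => val P (Matrix.diagonal x)) (hF.poly hD hgh i i)
    simp only [val_mul, val_sb, val_gNh, hdiag, hM] at h1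
    exact h1
  have h1 : rename σ (gg D) * VV N (σ i) (σ j) (σ k) = 0 := by
    refine MvPolynomial.funext fun x => ?_
    have h2 : eval (x ∘ σ) (VV N i j k) = 0 := by rw [h0, map_zero]
    rw [eval_VV] at h2
    rw [map_mul, eval_rename, eval_gg, eval_VV, map_zero]
    simp only [Function.comp_apply] at h2
    linear_combination (val D (Matrix.diagonal x)) * h2 - (x (σ j) - x (σ k)) * key x i -
      (x (σ k) - x (σ i)) * key x j - (x (σ i) - x (σ j)) * key x k
  rcases mul_eq_zero.1 h1 with h2 | h2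
  · exact absurd (rename_injective σ σ.injective (h2.trans (map_zero _).symm)) hgg
  · exact h2

/-- a minor of the three vectors `1`, `A`, `N (A)` -/
noncomputable def mm (N : Fin n → Fin n → Pol n) (p q r : Fin n × Fin n) : Pol n :=
  C (if p.1 = p.2 then 1 else 0) * (X q * N r.1 r.2 - X r * N q.1 q.2) -
    C (if q.1 = q.2 then 1 else 0) * (X p * N r.1 r.2 - X r * N p.1 p.2) +
    C (if r.1 = r.2 then 1 else 0) * (X p * N q.1 q.2 - X q * N p.1 p.2)

theorem val_mm (N : Fin n → Fin n → Pol n) (p q r : Fin n × Fin n) (A : Mt n) :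
    val (mm N p q r) A =
      (1 : Mt n) p.1 p.2 * (A q.1 q.2 * mv N A r.1 r.2 - A r.1 r.2 * mv N A q.1 q.2) -
      (1 : Mt n) q.1 q.2 * (A p.1 p.2 * mv N A r.1 r.2 - A r.1 r.2 * mv N A p.1 p.2) +
      (1 : Mt n) r.1 r.2 * (A p.1 p.2 * mv N A q.1 q.2 - A q.1 q.2 * mv N A p.1 p.2) := by
  simp only [mm, val, map_add, map_sub, map_mul, eval_C, eval_X, mv, Matrix.of_apply,
    Matrix.one_apply]

theorem VV_ne_zero (hn : 3 ≤ n) {N : Fin n → Fin n → Pol n} {D : Pol n} (hF : Equivariant N D)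
    (hD : D ≠ 0) (hgg : gg D ≠ 0) {p q r : Fin n × Fin n} (hm : mm N p q r ≠ 0)
    {i j k : Fin n} (h1 : i ≠ j) (h2 : i ≠ k) (h3 : j ≠ k) : VV N i j k ≠ 0 := by
  classical
  intro h0
  have hall : ∀ i j k, VV N i j k = 0 := by
    intro i' j' k'
    by_cases h1' : i' = j'
    · subst h1'
      unfold VV
      ring
    by_cases h2' : i' = k'
    · subst h2'
      unfold VV
      ring
    by_cases h3' : j' = k'
    · subst h3'
      unfold VV
      ring
    obtain ⟨σ, rfl, rfl, rfl⟩ := exists_perm h1 h2 h3 h1' h2' h3'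
    exact VV_perm hF hD hgg σ h0
  let i0 : Fin n := ⟨0, by omega⟩
  let i1 : Fin n := ⟨1, by omega⟩
  have hW : gg D * (X i0 - X i1 : MvPolynomial (Fin n) ℂ) ≠ 0 := by
    refine mul_ne_zero hgg (sub_ne_zero.2 fun h => ?_)
    have := X_injective (R := ℂ) h
    simp [i0, i1] at this
  obtain ⟨g, h, x, hgh, hx, hv⟩ := dense (mm N p q r) hm _ hW
  rw [map_mul, eval_gg, map_sub, eval_X, eval_X] at hx
  have hDx : val D (Matrix.diagonal x) ≠ 0 := left_ne_zero_of_mul hx
  have hx01 : x i0 - x i1 ≠ 0 := right_ne_zero_of_mul hx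
  set φ : Fin n → ℂ := fun i => val (N i i) (Matrix.diagonal x) with hφ
  set Q : ℂ := (φ i0 - φ i1) / (x i0 - x i1) with hQ
  set P : ℂ := φ i0 - Q * x i0 with hP
  have hφi : ∀ i, φ i = P + Q * x i := by
    intro i
    have e := congrArg (eval x) (hall i0 i1 i)
    rw [eval_VV, map_zero] at e
    change (x i1 - x i) * φ i0 + (x i - x i0) * φ i1 + (x i0 - x i1) * φ i = 0 at e
    rw [hP, hQ]
    field_simp
    linear_combination e
  have hdiag : mv N (Matrix.diagonal x) = P • (1 : Mt n) + Q • Matrix.diagonal x := by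
    rw [diag_val hF x hDx]
    ext a b
    rw [Matrix.add_apply, Matrix.smul_apply, Matrix.smul_apply, smul_eq_mul, smul_eq_mul]
    by_cases hab : a = b
    · subst hab
      rw [Matrix.diagonal_apply_eq, Matrix.diagonal_apply_eq, Matrix.one_apply_eq, mul_one]
      exact hφi a
    · rw [Matrix.diagonal_apply_ne _ hab, Matrix.diagonal_apply_ne _ hab,
        Matrix.one_apply_ne hab]
      ring
  set A : Mt n := g * Matrix.diagonal x * h with hA
  have hNA : ∀ a b, val D (Matrix.diagonal x) * mv N A a b =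
      val D A * (P * (1 : Mt n) a b + Q * A a b) := by
    intro a b
    have e := congrArg (fun P => val P (Matrix.diagonal x)) (hF.poly hD hgh a b)
    simp only [val_mul, val_sb, val_gNh] at e
    rw [hdiag] at e
    have e2 : g * (P • (1 : Mt n) + Q • Matrix.diagonal x) * h = P • (1 : Mt n) + Q • A := by
      rw [mul_add, add_mul, mul_smul_comm, mul_smul_comm, smul_mul_assoc, smul_mul_assoc, mul_one,
        hgh]
    rw [e2, Matrix.add_apply, Matrix.smul_apply, Matrix.smul_apply, smul_eq_mul,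
      smul_eq_mul] at e
    exact e
  apply hv
  have e3 : val D (Matrix.diagonal x) * val (mm N p q r) A = 0 := by
    rw [val_mm]
    linear_combination
      ((1 : Mt n) p.1 p.2 * A q.1 q.2 - (1 : Mt n) q.1 q.2 * A p.1 p.2) * hNA r.1 r.2 +
      ((1 : Mt n) r.1 r.2 * A p.1 p.2 - (1 : Mt n) p.1 p.2 * A r.1 r.2) * hNA q.1 q.2 +
      ((1 : Mt n) q.1 q.2 * A r.1 r.2 - (1 : Mt n) r.1 r.2 * A q.1 q.2) * hNA p.1 p.2
  exact (mul_eq_zero.1 e3).resolve_left hDx

/-- **The lower bound** for matrix functions whose denominator does not vanish on all diagonal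
matrices. -/
theorem lower2 {m L : ℕ} (hm : 3 ≤ m) (hn : 3 * m ≤ n) {N : Fin n → Fin n → Pol n} {D : Pol n}
    (hD : D ≠ 0) (hF : Equivariant N D) (hgg : gg D ≠ 0) {p0 q0 r0 : Fin n × Fin n}
    (hmm : mm N p0 q0 r0 ≠ 0) (hL : Comp N D L) : HasRank m (6 * L) := by
  classical
  haveI : NeZero m := ⟨by omega⟩
  obtain ⟨d, hd0, hd⟩ := second_slp hD hL
  -- the three blocks of indices
  let u1 : Fin m → Fin n := fun i => ⟨i.1, by have := i.2; omega⟩
  let u2 : Fin m → Fin n := fun i => ⟨m + i.1, by have := i.2; omega⟩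
  let u3 : Fin m → Fin n := fun i => ⟨2 * m + i.1, by have := i.2; omega⟩
  have u11 : ∀ i j, u1 i = u1 j ↔ i = j := by
    intro i j; simp only [u1, Fin.mk.injEq, Fin.ext_iff]
  have u22 : ∀ i j, u2 i = u2 j ↔ i = j := by
    intro i j; simp only [u2, Fin.mk.injEq, Fin.ext_iff]; omega
  have u33 : ∀ i j, u3 i = u3 j ↔ i = j := by
    intro i j; simp only [u3, Fin.mk.injEq, Fin.ext_iff]; omega
  have u12 : ∀ i j, u1 i ≠ u2 j := by
    intro i j h; simp only [u1, u2, Fin.mk.injEq] at h; have := i.2; omega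
  have u13 : ∀ i j, u1 i ≠ u3 j := by
    intro i j h; simp only [u1, u3, Fin.mk.injEq] at h; have := i.2; omega
  have u23 : ∀ i j, u2 i ≠ u3 j := by
    intro i j h; simp only [u2, u3, Fin.mk.injEq] at h; have := i.2; omega
  -- three permutations of the first block
  let c0 : Fin 3 → Fin m := Fin.castLE hm
  have hc0 : Function.Injective c0 := Fin.castLE_injective hm
  let π : Fin 3 → Fin m → Fin m := fun r i => i + c0 r
  have hπ : ∀ r i j, π r i = π r j ↔ i = j := fun r i j => add_left_inj _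
  have hπ' : ∀ i r s, π r i = π s i ↔ r = s := by
    intro i r s
    constructor
    · intro h
      exact hc0 (add_left_cancel h)
    · rintro rfl; rfl
  have hn3 : 3 ≤ n := by omega
  let Wp : MvPolynomial (Fin n) ℂ := ∏ i : Fin m, VV N (u1 (π 0 i)) (u1 (π 1 i)) (u1 (π 2 i))
  have hWp : Wp ≠ 0 := by
    refine Finset.prod_ne_zero_iff.2 fun i _ => VV_ne_zero hn3 hF hD hgg hmm ?_ ?_ ?_
    · rw [Ne, u11, hπ']; decide
    · rw [Ne, u11, hπ']; decide
    · rw [Ne, u11, hπ']; decide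
  let Vd : MvPolynomial (Fin n) ℂ := ∏ p : Fin n × Fin n, if p.1 = p.2 then 1 else X p.1 - X p.2
  have hVd : Vd ≠ 0 := by
    refine Finset.prod_ne_zero_iff.2 fun p _ => ?_
    by_cases h : p.1 = p.2
    · rw [if_pos h]; exact one_ne_zero
    · rw [if_neg h]
      exact sub_ne_zero.2 fun h' => h (X_injective h')
  obtain ⟨g, h, x, hgh, hx, hv⟩ := dense (d * D) (mul_ne_zero hd0 hD) (Wp * (Vd * gg D))
    (mul_ne_zero hWp (mul_ne_zero hVd hgg))
  have hhg : h * g = 1 := mul_eq_one_comm.1 hgh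
  set A0 : Mt n := g * Matrix.diagonal x * h with hA0
  rw [val_mul] at hv
  rw [map_mul, map_mul, eval_gg] at hx
  have hxW : eval x Wp ≠ 0 := left_ne_zero_of_mul hx
  have hxV : eval x Vd ≠ 0 := left_ne_zero_of_mul (right_ne_zero_of_mul hx)
  have hDx : val D (Matrix.diagonal x) ≠ 0 := right_ne_zero_of_mul (right_ne_zero_of_mul hx)
  have hDA : val D A0 ≠ 0 := right_ne_zero_of_mul hv
  have hdist : ∀ i j, i ≠ j → x i ≠ x j := by
    intro i j hij h
    rw [map_prod] at hxV
    have h2 := Finset.prod_ne_zero_iff.1 hxV (i, j) (Finset.mem_univ _)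
    rw [if_neg hij, map_sub, eval_X, eval_X, h, sub_self] at h2
    exact h2 rfl
  obtain ⟨c, p, q, H⟩ := hd A0 (left_ne_zero_of_mul hv)
  -- the second derivatives at the diagonal matrix
  let e : Fin L → Fin n → Fin n → ℂ := fun k r s =>
    (val D A0 ^ 3)⁻¹ * (val D (Matrix.diagonal x) ^ 3 * ∑ a, ∑ b, h r a * g b s * c k a b)
  have hT : ∀ (r s : Fin n) (Y Z : Mt n), val (F2 (N r s) D Y Z) (Matrix.diagonal x) =
      ∑ k, e k r s * (lf (p k) (g * Y * h) * lf (q k) (g * Z * h) +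
        lf (q k) (g * Y * h) * lf (p k) (g * Z * h)) := by
    intro r s Y Z
    have h1 := F2_conj hF hD hhg A0 (g * Y * h) (g * Z * h) r s hDA
    have h2 : ∀ M : Mt n, h * (g * M * h) * g = M := by
      intro M
      calc h * (g * M * h) * g = (h * g) * M * (h * g) := by simp only [mul_assoc]
        _ = M := by rw [hhg, one_mul, mul_one]
    rw [h2, h2, hA0, h2, ← hA0] at h1
    have h3 : val (F2 (N r s) D Y Z) (Matrix.diagonal x) = (val D A0 ^ 3)⁻¹ *
        (val D A0 ^ 3 * val (F2 (N r s) D Y Z) (Matrix.diagonal x)) := by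
      rw [inv_mul_cancel_left₀ (pow_ne_zero 3 hDA)]
    rw [h3, h1]
    simp only [H, e]
    calc (val D A0 ^ 3)⁻¹ * (val D (Matrix.diagonal x) ^ 3 * ∑ a, ∑ b, h r a * g b s *
          ∑ k, c k a b * (lf (p k) (g * Y * h) * lf (q k) (g * Z * h) +
            lf (q k) (g * Y * h) * lf (p k) (g * Z * h)))
        = (val D A0 ^ 3)⁻¹ * (val D (Matrix.diagonal x) ^ 3 * ∑ a, ∑ b, ∑ k, h r a * g b s *
          (c k a b * (lf (p k) (g * Y * h) * lf (q k) (g * Z * h) +
            lf (q k) (g * Y * h) * lf (p k) (g * Z * h)))) := by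
          simp only [Finset.mul_sum]
      _ = (val D A0 ^ 3)⁻¹ * (val D (Matrix.diagonal x) ^ 3 * ∑ a, ∑ k, ∑ b, h r a * g b s *
          (c k a b * (lf (p k) (g * Y * h) * lf (q k) (g * Z * h) +
            lf (q k) (g * Y * h) * lf (p k) (g * Z * h)))) := by
          congr 2
          exact Finset.sum_congr rfl fun a _ => Finset.sum_comm
      _ = (val D A0 ^ 3)⁻¹ * (val D (Matrix.diagonal x) ^ 3 * ∑ k, ∑ a, ∑ b, h r a * g b s *
          (c k a b * (lf (p k) (g * Y * h) * lf (q k) (g * Z * h) +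
            lf (q k) (g * Y * h) * lf (p k) (g * Z * h)))) := by
          congr 2
          exact Finset.sum_comm
      _ = _ := by
          rw [Finset.mul_sum, Finset.mul_sum]
          refine Finset.sum_congr rfl fun k _ => ?_
          generalize (lf (p k) (g * Y * h) * lf (q k) (g * Z * h) +
            lf (q k) (g * Y * h) * lf (p k) (g * Z * h)) = B
          have h4 : ∑ a, ∑ b, h r a * g b s * (c k a b * B) =
              (∑ a, ∑ b, h r a * g b s * c k a b) * B := by
            rw [Finset.sum_mul]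
            refine Finset.sum_congr rfl fun a _ => ?_
            rw [Finset.sum_mul]
            refine Finset.sum_congr rfl fun b _ => ?_
            ring
          rw [h4]
          ring
  -- the coefficients
  set φ : Fin n → ℂ := fun i => val (N i i) (Matrix.diagonal x) with hφ
  set D0 : ℂ := val D (Matrix.diagonal x) with hD0
  let Wv : Fin m → ℂ := fun i => eval x (VV N (u1 (π 0 i)) (u1 (π 1 i)) (u1 (π 2 i)))
  have hWv : ∀ i, Wv i ≠ 0 := by
    intro i
    have h1 : eval x Wp = ∏ i, Wv i := map_prod _ _ _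
    rw [h1] at hxW
    exact Finset.prod_ne_zero_iff.1 hxW i (Finset.mem_univ _)
  let κ : Fin 3 → Fin m → ℂ := fun r i =>
    ![(x (u1 (π 1 i)) - x (u1 (π 2 i))) / (Wv i * D0 ^ 2),
      (x (u1 (π 2 i)) - x (u1 (π 0 i))) / (Wv i * D0 ^ 2),
      (x (u1 (π 0 i)) - x (u1 (π 1 i))) / (Wv i * D0 ^ 2)] r
  have hκ : ∀ i j k, ∑ r, κ r i * ((x (u1 (π r i)) - x (u2 j)) * (x (u1 (π r i)) - x (u3 k)) *
      val (F2 (N (u1 (π r i)) (u3 k)) D (E (u1 (π r i)) (u2 j)) (E (u2 j) (u3 k)))
        (Matrix.diagonal x)) = 1 := by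
    intro i j k
    have h1 : ∀ r, (x (u1 (π r i)) - x (u2 j)) * (x (u1 (π r i)) - x (u3 k)) *
        val (F2 (N (u1 (π r i)) (u3 k)) D (E (u1 (π r i)) (u2 j)) (E (u2 j) (u3 k)))
          (Matrix.diagonal x) = D0 ^ 2 * (φ (u1 (π r i)) -
        x (u1 (π r i)) * ((φ (u2 j) - φ (u3 k)) / (x (u2 j) - x (u3 k))) -
        (φ (u2 j) - x (u2 j) * ((φ (u2 j) - φ (u3 k)) / (x (u2 j) - x (u3 k))))) :=
      fun r => matched hF hD hDx (u12 _ _) (u23 _ _) (u13 _ _) (hdist _ _ (u12 _ _))
        (hdist _ _ (u23 _ _)) (hdist _ _ (u13 _ _))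
    rw [Finset.sum_congr rfl fun r _ => by rw [h1 r], Fin.sum_univ_three]
    simp only [κ, Matrix.cons_val_zero, Matrix.cons_val_one, Matrix.cons_val_two,
      Matrix.head_cons, Matrix.tail_cons]
    have h2 : Wv i = (x (u1 (π 1 i)) - x (u1 (π 2 i))) * φ (u1 (π 0 i)) +
        (x (u1 (π 2 i)) - x (u1 (π 0 i))) * φ (u1 (π 1 i)) +
        (x (u1 (π 0 i)) - x (u1 (π 1 i))) * φ (u1 (π 2 i)) := eval_VV _ _ _ _ _
    have h3 := hWv i
    generalize (φ (u2 j) - φ (u3 k)) / (x (u2 j) - x (u3 k)) = cc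
    field_simp
    rw [h2]
    ring
  -- mismatched indices
  have hoff : ∀ i j j' k k' l, ¬ (j = j' ∧ k = k' ∧ l = i) →
      val (F2 (N (u1 l) (u3 k')) D (E (u1 i) (u2 j)) (E (u2 j') (u3 k)))
        (Matrix.diagonal x) = 0 := by
    intro i j j' k k' l hne
    by_cases h1 : l = i
    · by_cases h2 : j = j'
      · have h3 : k ≠ k' := fun h3 => hne ⟨h2, h3, h1⟩
        refine off2 hF hD x hDx (u3 k') _ _ _ _ _ _ ?_
        have e1 : ¬ (u3 k = u3 k') := fun e => h3 ((u33 _ _).1 e)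
        simp only [e1, u13, u23, if_false, if_true]
        norm_num
      · refine off2 hF hD x hDx (u2 j') _ _ _ _ _ _ ?_
        have e1 : ¬ (u2 j = u2 j') := fun e => h2 ((u22 _ _).1 e)
        simp only [e1, u12, (u23 _ _).symm, if_false, if_true]
        norm_num
    · refine off2 hF hD x hDx (u1 l) _ _ _ _ _ _ ?_
      have e1 : ¬ (u1 i = u1 l) := fun e => h1 ((u11 _ _).1 e).symm
      simp only [e1, (u12 _ _).symm, (u13 _ _).symm, if_false, if_true]
      norm_num
  -- the decomposition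
  let fa : Fin L → Fin 2 → Mt n → ℂ := fun t s Y => ![lf (p t) Y, lf (q t) Y] s
  let fb : Fin L → Fin 2 → Mt n → ℂ := fun t s Y => ![lf (q t) Y, lf (p t) Y] s
  have hsum : ∀ (r s : Fin n) (Y Z : Mt n), ∑ t, ∑ w, fa t w (g * Y * h) * fb t w (g * Z * h) *
      e t r s = val (F2 (N r s) D Y Z) (Matrix.diagonal x) := by
    intro r s Y Z
    rw [hT]
    refine Finset.sum_congr rfl fun t _ => ?_
    rw [Fin.sum_univ_two]
    simp only [fa, fb, Matrix.cons_val_zero, Matrix.cons_val_one]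
    ring
  refine hasRank_of_hasRankT (I := Fin m) (T := Fin 3 × Fin L × Fin 2) (by simp)
    (by simp only [Fintype.card_prod, Fintype.card_fin]; ring) ?_
  refine ⟨fun T i j => κ T.1 i * (x (u1 (π T.1 i)) - x (u2 j)) *
      fa T.2.1 T.2.2 (g * E (u1 (π T.1 i)) (u2 j) * h),
    fun T j' k => fb T.2.1 T.2.2 (g * E (u2 j') (u3 k) * h),
    fun T k' l => (x (u1 (π T.1 l)) - x (u3 k')) * e T.2.1 (u1 (π T.1 l)) (u3 k'), ?_⟩
  intro i j j' k k' l
  rw [Fintype.sum_prod_type]
  have hr : ∀ r : Fin 3, ∑ z : Fin L × Fin 2,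
      κ r i * (x (u1 (π r i)) - x (u2 j)) * fa z.1 z.2 (g * E (u1 (π r i)) (u2 j) * h) *
        fb z.1 z.2 (g * E (u2 j') (u3 k) * h) *
        ((x (u1 (π r l)) - x (u3 k')) * e z.1 (u1 (π r l)) (u3 k')) =
      κ r i * ((x (u1 (π r i)) - x (u2 j)) * (x (u1 (π r l)) - x (u3 k')) *
        val (F2 (N (u1 (π r l)) (u3 k')) D (E (u1 (π r i)) (u2 j)) (E (u2 j') (u3 k)))
          (Matrix.diagonal x)) := by
    intro r
    rw [← hsum, Fintype.sum_prod_type, Finset.mul_sum, Finset.mul_sum]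
    refine Finset.sum_congr rfl fun t _ => ?_
    rw [Finset.mul_sum, Finset.mul_sum]
    refine Finset.sum_congr rfl fun s _ => ?_
    ring
  rw [Finset.sum_congr rfl fun r _ => hr r]
  by_cases hc : j = j' ∧ k = k' ∧ l = i
  · rw [if_pos hc]
    obtain ⟨rfl, rfl, rfl⟩ := hc
    exact (hκ l j k).symm
  · rw [if_neg hc]
    refine (Finset.sum_eq_zero fun r _ => ?_).symm
    rw [hoff (π r i) j j' k k' (π r l) (fun h' => hc ⟨h'.1, h'.2.1, (hπ r l i).1 h'.2.2⟩)]
    ring

end

end Pool.Agent.helper747_mf
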