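import Pool.Agent.helper747_mf.Fast
import Pool.Agent.helper747_sp.Upper

/-!
# The theorem on matrix functions
-/

set_option autoImplicit false

namespace Pool.Agent.helper747_mf

open MvPolynomial Matrix
open Pool.Agent.H53R3 (SLPComputes IsSLP affS)
open Pool.Agent.helper747_sp
open Pool.Agent.H515R2.MMR

section

variable {n : ℕ}

theorem val_D_mul_gNh {N : Fin n → Fin n → Pol n} (D : Pol n) (g h : Mt n) (i j : Fin n) :
    D * gNh g h N i j = gNh g h (fun a b => D * N a b) i j := by
  unfold gNh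
  rw [Finset.mul_sum]
  refine Finset.sum_congr rfl fun a _ => ?_
  rw [Finset.mul_sum]
  refine Finset.sum_congr rfl fun b _ => ?_
  ring

/-- some minor of independent vectors does not vanish -/
theorem exists_minor {N : Fin n → Fin n → Pol n} {A : Mt n} {c : ℂ}
    (h : LinearIndependent ℂ ![1, A, c • mv N A]) : ∃ p q r, mm N p q r ≠ 0 := by
  by_contra hcon
  push Not at hcon
  rw [Fintype.linearIndependent_iff] at h
  have hm : ∀ p q r : Fin n × Fin n, (1 : Mt n) p.1 p.2 *
      (A q.1 q.2 * mv N A r.1 r.2 - A r.1 r.2 * mv N A q.1 q.2) -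
      (1 : Mt n) q.1 q.2 * (A p.1 p.2 * mv N A r.1 r.2 - A r.1 r.2 * mv N A p.1 p.2) +
      (1 : Mt n) r.1 r.2 * (A p.1 p.2 * mv N A q.1 q.2 - A q.1 q.2 * mv N A p.1 p.2) = 0 := by
    intro p q r
    rw [← val_mm, hcon]
    simp [val]
  -- all two by two minors of `1`, `A` vanish
  have h2 : ∀ p q : Fin n × Fin n,
      (1 : Mt n) p.1 p.2 * A q.1 q.2 - (1 : Mt n) q.1 q.2 * A p.1 p.2 = 0 := by
    intro p q
    have hc0 : c ≠ 0 := by
      rintro rfl
      have := h ![0, 0, 1] (by simp [Fin.sum_univ_three]) 2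
      simp at this
    have key := h ![A p.1 p.2 * mv N A q.1 q.2 - A q.1 q.2 * mv N A p.1 p.2,
      (1 : Mt n) q.1 q.2 * mv N A p.1 p.2 - (1 : Mt n) p.1 p.2 * mv N A q.1 q.2,
      ((1 : Mt n) p.1 p.2 * A q.1 q.2 - (1 : Mt n) q.1 q.2 * A p.1 p.2) * c⁻¹] (by
        rw [Fin.sum_univ_three]
        simp only [Matrix.cons_val_zero, Matrix.cons_val_one, Matrix.cons_val_two,
          Matrix.head_cons, Matrix.tail_cons]
        ext a b
        rw [Matrix.add_apply, Matrix.add_apply, Matrix.smul_apply, Matrix.smul_apply,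
          Matrix.smul_apply, Matrix.smul_apply, Matrix.zero_apply, smul_eq_mul, smul_eq_mul,
          smul_eq_mul, smul_eq_mul]
        have h3 := hm p q (a, b)
        simp only [] at h3
        have h4 : ((1 : Mt n) p.1 p.2 * A q.1 q.2 - (1 : Mt n) q.1 q.2 * A p.1 p.2) * c⁻¹ *
            (c * mv N A a b) =
            ((1 : Mt n) p.1 p.2 * A q.1 q.2 - (1 : Mt n) q.1 q.2 * A p.1 p.2) * mv N A a b := by
          field_simp
        rw [h4]
        linear_combination h3) 2
    simp only [Matrix.cons_val_two, Matrix.head_cons, Matrix.tail_cons] at key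
    rcases mul_eq_zero.1 key with h5 | h5
    · exact h5
    · exact absurd h5 (inv_ne_zero hc0)
  rcases Nat.eq_zero_or_pos n with hn | hn
  · subst hn
    have := h ![1, 0, 0] (by ext a; exact a.elim0) 0
    simp at this
  · let o : Fin n × Fin n := (⟨0, hn⟩, ⟨0, hn⟩)
    have := h ![A o.1 o.2, -1, 0] (by
      rw [Fin.sum_univ_three]
      simp only [Matrix.cons_val_zero, Matrix.cons_val_one, Matrix.cons_val_two,
        Matrix.head_cons, Matrix.tail_cons]
      ext a b
      rw [Matrix.add_apply, Matrix.add_apply, Matrix.smul_apply, Matrix.smul_apply,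
        Matrix.smul_apply, Matrix.zero_apply, smul_eq_mul, smul_eq_mul, smul_eq_mul]
      have h3 := h2 o (a, b)
      have h4 : (1 : Mt n) o.1 o.2 = 1 := Matrix.one_apply_eq _
      rw [h4] at h3
      simp only [] at h3
      linear_combination -h3) 1
    simp at this

/-- **The lower bound for matrix functions.** -/
theorem matrix_function {m L : ℕ} (hm : 3 ≤ m) (hn : 3 * m ≤ n) {N : Fin n → Fin n → Pol n}
    {D : Pol n} (hD : D ≠ 0) (hF : Equivariant N D) {p q r : Fin n × Fin n}
    (hmm : mm N p q r ≠ 0) (hL : Comp N D L) : HasRank m (6 * L) := by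
  classical
  -- a conjugate whose denominator does not vanish on the diagonal matrices
  obtain ⟨g0, h0, x0, hgh0, -, hv0⟩ := dense D hD 1 one_ne_zero
  have hhg0 : h0 * g0 = 1 := mul_eq_one_comm.1 hgh0
  set D' : Pol n := sb g0 h0 D with hD'
  set N' : Fin n → Fin n → Pol n := fun i j => gNh h0 g0 (fun a b => sb g0 h0 (N a b)) i j
    with hN'
  have hD'0 : D' ≠ 0 := sb_ne hgh0 hD
  have hgg : gg D' ≠ 0 := by
    intro h
    apply hv0
    rw [← val_sb, ← hD', ← eval_gg, h, map_zero]
  have hrel : ∀ i j, D * N' i j = D' * N i j := by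
    intro i j
    refine pol_ext fun A => ?_
    rw [val_mul, val_mul, hN', val_gNh]
    have h1 : val D A • mv (fun a b => sb g0 h0 (N a b)) A = val D' A • (g0 * mv N A * h0) := by
      ext a b
      have e := congrArg (fun P => val P A) (hF.poly hD hgh0 a b)
      simp only [val_mul, val_gNh] at e
      rw [Matrix.smul_apply, Matrix.smul_apply, smul_eq_mul, smul_eq_mul]
      exact e
    have h2 : val D A • (h0 * mv (fun a b => sb g0 h0 (N a b)) A * g0) = val D' A • mv N A := by
      rw [← smul_mul_assoc, ← mul_smul_comm, h1, mul_smul_comm, smul_mul_assoc]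
      congr 1
      calc h0 * (g0 * mv N A * h0) * g0 = (h0 * g0) * mv N A * (h0 * g0) := by
            simp only [mul_assoc]
        _ = mv N A := by rw [hhg0, one_mul, mul_one]
    have h3 := congrFun (congrFun h2 i) j
    rw [Matrix.smul_apply, Matrix.smul_apply, smul_eq_mul, smul_eq_mul] at h3
    exact h3
  have hF' : Equivariant N' D' := by
    intro g h A hgh hA hgA
    have hpol : ∀ i j, D' * sb g h (N' i j) = sb g h D' * gNh g h N' i j := by
      intro i j
      apply mul_left_cancel₀ (mul_ne_zero hD (sb_ne hgh hD))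
      have e1 : sb g h D * sb g h (N' i j) = sb g h D' * sb g h (N i j) := by
        rw [← map_mul, hrel, map_mul]
      have e2 : D * gNh g h N' i j = D' * gNh g h N i j := by
        rw [val_D_mul_gNh, val_D_mul_gNh]
        congr 1
        funext a b
        exact hrel a b
      have e3 := hF.poly hD hgh i j
      linear_combination (D * D') * e1 + (D' * sb g h D') * e3 - (sb g h D * sb g h D') * e2
    unfold fn
    rw [mul_smul_comm, smul_mul_assoc]
    ext i j
    have e := congrArg (fun P => val P A) (hpol i j)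
    simp only [val_mul, val_gNh, val_sb] at e
    rw [Matrix.smul_apply, Matrix.smul_apply, smul_eq_mul, smul_eq_mul]
    have e' : val D' A * mv N' (g * A * h) i j = val D' (g * A * h) * (g * mv N' A * h) i j := e
    field_simp
    linear_combination e'
  have hmm' : mm N' p q r ≠ 0 := by
    intro h
    have e : D * mm N' p q r = D' * mm N p q r := by
      unfold mm
      linear_combination
        (C (if p.1 = p.2 then 1 else 0) * X q - C (if q.1 = q.2 then 1 else 0) * X p) *
          hrel r.1 r.2 +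
        (C (if r.1 = r.2 then 1 else 0) * X p - C (if p.1 = p.2 then 1 else 0) * X r) *
          hrel q.1 q.2 +
        (C (if q.1 = q.2 then 1 else 0) * X r - C (if r.1 = r.2 then 1 else 0) * X q) *
          hrel p.1 p.2
    rw [h, mul_zero] at e
    exact mul_ne_zero hD'0 hmm e.symm
  have hL' : Comp N' D' L := by
    have hal : ∀ P : Pol n, P ≠ 0 → al P ≠ 0 := fun P hP h => hP (al_inj (by rw [h, map_zero]))
    have : (fun s : Fin n × Fin n => al (N' s.1 s.2) / al D') =
        fun s : Fin n × Fin n => al (N s.1 s.2) / al D := by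
      funext s
      rw [div_eq_div_iff (hal _ hD'0) (hal _ hD), ← RingHom.map_mul, ← RingHom.map_mul,
        mul_comm, hrel, mul_comm]
    unfold Comp
    rw [this]
    exact hL
  exact lower2 hm hn hD'0 hF' hgg hmm' hL'

/-- the entries of the square of a matrix -/
noncomputable def sq (n : ℕ) : Fin n → Fin n → Pol n := fun i k => ∑ j, X (i, j) * X (j, k)

theorem mv_sq (A : Mt n) : mv (sq n) A = A * A := by
  ext i k
  simp only [mv, sq, Matrix.of_apply, val, map_sum, map_mul, eval_X, Matrix.mul_apply]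

theorem fn_sq (A : Mt n) : fn (sq n) 1 A = A * A := by
  have h1 : val (1 : Pol n) A = 1 := by simp [val]
  rw [fn, h1, inv_one, one_smul, mv_sq]

theorem equivariant_sq : Equivariant (sq n) 1 := by
  intro g h A hgh _ _
  have hhg : h * g = 1 := mul_eq_one_comm.1 hgh
  rw [fn_sq, fn_sq]
  calc g * A * h * (g * A * h) = g * A * (h * g) * A * h := by simp only [mul_assoc]
    _ = g * (A * A) * h := by rw [hhg, mul_one]; simp only [mul_assoc]

theorem independent_sq (hn : 3 ≤ n) : ∃ A : Mt n, val (1 : Pol n) A ≠ 0 ∧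
    LinearIndependent ℂ ![1, A, fn (sq n) 1 A] := by
  refine ⟨Matrix.diagonal fun i => (i.1 : ℂ), by simp [val], ?_⟩
  rw [fn_sq, Matrix.diagonal_mul_diagonal, Fintype.linearIndependent_iff]
  intro c hc
  rw [Fin.sum_univ_three] at hc
  simp only [Matrix.cons_val_zero, Matrix.cons_val_one, Matrix.cons_val_two,
    Matrix.head_cons, Matrix.tail_cons] at hc
  have h1 : ∀ i : Fin n, c 0 + c 1 * (i.1 : ℂ) + c 2 * ((i.1 : ℂ) * (i.1 : ℂ)) = 0 := by
    intro i
    have e := congrFun (congrFun hc i) i
    rw [Matrix.add_apply, Matrix.add_apply, Matrix.smul_apply, Matrix.smul_apply,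
      Matrix.smul_apply, Matrix.diagonal_apply_eq, Matrix.diagonal_apply_eq,
      Matrix.one_apply_eq, smul_eq_mul, smul_eq_mul, smul_eq_mul, Matrix.zero_apply] at e
    linear_combination e
  have e0 := h1 ⟨0, by omega⟩
  have e1 := h1 ⟨1, by omega⟩
  have e2 := h1 ⟨2, by omega⟩
  simp only [Nat.cast_zero, Nat.cast_one, Nat.cast_ofNat] at e0 e1 e2
  have k0 : c 0 = 0 := by linear_combination e0
  have k2 : c 2 = 0 := by linear_combination (1 / 2) * e2 - e1 + (1 / 2) * e0
  have k1 : c 1 = 0 := by linear_combination e1 - k0 - k2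
  intro i
  fin_cases i
  · exact k0
  · exact k1
  · exact k2

theorem sq_eq {r : ℕ} {a b c : Fin r → Fin n → Fin n → ℂ}
    (hh : ∀ i j j' k k' l : Fin n, (if j = j' ∧ k = k' ∧ l = i then (1 : ℂ) else 0) =
      ∑ t : Fin r, a t i j * b t j' k * c t k' l) (i k : Fin n) :
    sq n i k = ∑ t, C (c t k i) * (lc (a t) * lc (b t)) := by
  refine pol_ext fun A => ?_
  rw [val_sum]
  have h1 : ∀ t, val (C (c t k i) * (lc (a t) * lc (b t))) A =
      ∑ p : Fin n × Fin n, ∑ q : Fin n × Fin n,
        (a t p.1 p.2 * b t q.1 q.2 * c t k i) * (A p.1 p.2 * A q.1 q.2) := by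
    intro t
    rw [val_Cmul, val_mul, val_lc, val_lc]
    unfold lf
    rw [Finset.sum_mul_sum, Finset.mul_sum]
    refine Finset.sum_congr rfl fun p _ => ?_
    rw [Finset.mul_sum]
    refine Finset.sum_congr rfl fun q _ => ?_
    ring
  rw [Finset.sum_congr rfl fun t _ => h1 t, Finset.sum_comm]
  have h2 : ∀ p : Fin n × Fin n, ∑ t, ∑ q : Fin n × Fin n,
        (a t p.1 p.2 * b t q.1 q.2 * c t k i) * (A p.1 p.2 * A q.1 q.2) =
      if p.1 = i then A p.1 p.2 * A p.2 k else 0 := by
    intro p
    rw [Finset.sum_comm, Finset.sum_eq_single (p.2, k)]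
    · rw [← Finset.sum_mul, ← hh]
      by_cases hp : p.1 = i
      · rw [if_pos ⟨rfl, rfl, hp.symm⟩, if_pos hp, one_mul]
      · rw [if_neg fun h => hp h.2.2.symm, if_neg hp, zero_mul]
    · intro q _ hq
      rw [← Finset.sum_mul, ← hh, if_neg, zero_mul]
      rintro ⟨h3, h4, -⟩
      exact hq (Prod.ext h3.symm h4)
    · intro h; exact absurd (Finset.mem_univ _) h
  rw [Finset.sum_congr rfl fun p _ => h2 p, Fintype.sum_prod_type, Finset.sum_eq_single i]
  · simp only [if_true]
    simp only [sq, val, map_sum, map_mul, eval_X]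
  · intro p _ hp
    refine Finset.sum_eq_zero fun q _ => ?_
    rw [if_neg hp]
  · intro h; exact absurd (Finset.mem_univ _) h

theorem comp_sq {r : ℕ} (h : HasRank n r) : Comp (sq n) 1 r := by
  obtain ⟨a, b, c, hh⟩ := h
  let g : ℕ → Rf (Fin n × Fin n) := fun l =>
    if h : l < r then al (lc (a ⟨l, h⟩)) * al (lc (b ⟨l, h⟩)) else 0
  refine ⟨g, ?_, ?_⟩
  · intro l hl
    refine ⟨_, lc_mem (a ⟨l, hl⟩) g l, _, lc_mem (b ⟨l, hl⟩) g l, Or.inl ?_⟩
    simp only [g]
    rw [dif_pos hl]
  · rintro f ⟨⟨i, k⟩, rfl⟩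
    have h1 : al (sq n i k) / al 1 = ∑ t : Fin r, (c t k i) • g t.1 := by
      rw [map_one, div_one, sq_eq hh, map_sum]
      refine Finset.sum_congr rfl fun t _ => ?_
      simp only [g]
      rw [dif_pos t.2, Algebra.smul_def, RingHom.map_mul, RingHom.map_mul]
      rfl
    change al (sq n i k) / al 1 ∈ _
    rw [h1]
    exact Submodule.sum_mem _ fun t _ => Submodule.smul_mem _ _
      (Submodule.subset_span (Or.inr ⟨t.1, t.2, rfl⟩))

end

end Pool.Agent.helper747_mf
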