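import Pool.Agent.helper747_mf.Base

/-!
# Second derivatives of matrix functions at diagonal matrices
-/

set_option autoImplicit false

namespace Pool.Agent.helper747_mf

open MvPolynomial Matrix
open Pool.Agent.helper747_sp

section

variable {n : ℕ}

theorem F2_sb (N D : Pol n) (g h Y Z : Mt n) :
    F2 (sb g h N) (sb g h D) Y Z = sb g h (F2 N D (g * Y * h) (g * Z * h)) := by
  simp only [F2, dd_sb, map_sub, map_add, map_mul, map_ofNat]

theorem F2_add (N N' D : Pol n) (Y Z : Mt n) :
    F2 (N + N') D Y Z = F2 N D Y Z + F2 N' D Y Z := by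
  simp only [F2, map_add]
  ring

theorem F2_zero (D : Pol n) (Y Z : Mt n) : F2 0 D Y Z = 0 := by
  simp only [F2, map_zero]
  ring

theorem F2_C (c : ℂ) (N D : Pol n) (Y Z : Mt n) : F2 (C c * N) D Y Z = C c * F2 N D Y Z := by
  simp only [F2, dd_mul, dd_C, map_add, zero_mul, zero_add]
  ring

theorem F2_sum {ι : Type} (s : Finset ι) (N : ι → Pol n) (D : Pol n) (Y Z : Mt n) :
    F2 (∑ i ∈ s, N i) D Y Z = ∑ i ∈ s, F2 (N i) D Y Z := by
  classical
  induction s using Finset.induction_on with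
  | empty => simp only [Finset.sum_empty]; exact F2_zero D Y Z
  | insert a s ha ih => rw [Finset.sum_insert ha, Finset.sum_insert ha, F2_add, ih]

theorem F2_smul (N D : Pol n) (c c' : ℂ) (Y Z A : Mt n) :
    val (F2 N D (c • Y) (c' • Z)) A = c * c' * val (F2 N D Y Z) A := by
  rw [F2_bilin, F2_bilin N D A Y Z, Finset.mul_sum]
  refine Finset.sum_congr rfl fun a _ => ?_
  rw [Finset.mul_sum]
  refine Finset.sum_congr rfl fun b _ => ?_
  rw [Matrix.smul_apply, Matrix.smul_apply, smul_eq_mul, smul_eq_mul]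
  ring

/-- The second derivatives at similar matrices. -/
theorem F2_conj {N : Fin n → Fin n → Pol n} {D : Pol n} (hF : Equivariant N D) (hD : D ≠ 0)
    {g h : Mt n} (hgh : g * h = 1) (A Y Z : Mt n) (i j : Fin n) (hA : val D A ≠ 0) :
    val D A ^ 3 * val (F2 (N i j) D (g * Y * h) (g * Z * h)) (g * A * h) =
      val D (g * A * h) ^ 3 * ∑ a, ∑ b, g i a * h b j * val (F2 (N a b) D Y Z) A := by
  have h1 := F2_congr (hF.poly hD hgh i j) A Y Z hA
  rw [F2_sb, val_sb, val_sb] at h1
  rw [h1]
  congr 1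
  unfold gNh
  rw [F2_sum, val_sum]
  refine Finset.sum_congr rfl fun a _ => ?_
  rw [F2_sum, val_sum]
  refine Finset.sum_congr rfl fun b _ => ?_
  rw [F2_C, val_Cmul]

/-- the diagonal matrix with a `2` in the row `a` and its inverse -/
theorem torus_facts (a : Fin n) : ∃ (t : Fin n → ℂ) (g h : Mt n),
    t = (fun b => if b = a then 2 else 1) ∧ g = Matrix.diagonal t ∧
    h = Matrix.diagonal (fun i => (t i)⁻¹) ∧
    g * h = 1 ∧ (∀ p q : Fin n, g * E p q * h = (t p * (t q)⁻¹) • E p q) ∧
    ∀ x : Fin n → ℂ, g * Matrix.diagonal x * h = Matrix.diagonal x := by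
  set t : Fin n → ℂ := fun b => if b = a then 2 else 1 with ht
  have ht0 : ∀ i, t i ≠ 0 := fun i => by by_cases hi : i = a <;> simp [ht, hi]
  refine ⟨t, Matrix.diagonal t, Matrix.diagonal (fun i => (t i)⁻¹), rfl, rfl, rfl, ?_, ?_, ?_⟩
  · rw [Matrix.diagonal_mul_diagonal, ← Matrix.diagonal_one]
    congr 1
    funext i
    exact mul_inv_cancel₀ (ht0 i)
  · intro p q
    ext c d
    rw [Matrix.mul_diagonal, Matrix.diagonal_mul, Matrix.smul_apply, smul_eq_mul]
    simp only [E, Matrix.single_apply]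
    by_cases h : p = c ∧ q = d
    · obtain ⟨rfl, rfl⟩ := h
      simp
    · rw [if_neg h]
      ring
  · intro x
    rw [Matrix.diagonal_mul_diagonal, Matrix.diagonal_mul_diagonal]
    congr 1
    funext i
    rw [mul_comm (t i), mul_assoc, mul_inv_cancel₀ (ht0 i), mul_one]

/-- Second derivatives of the wrong weight vanish. -/
theorem off2 {N : Fin n → Fin n → Pol n} {D : Pol n} (hF : Equivariant N D) (hD : D ≠ 0)
    (x : Fin n → ℂ) (hx : val D (Matrix.diagonal x) ≠ 0) (a p q r s i j : Fin n)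
    (hne : (fun b : Fin n => if b = a then (2 : ℂ) else 1) p *
      ((fun b : Fin n => if b = a then (2 : ℂ) else 1) q)⁻¹ *
      ((fun b : Fin n => if b = a then (2 : ℂ) else 1) r *
        ((fun b : Fin n => if b = a then (2 : ℂ) else 1) s)⁻¹) ≠
      (fun b : Fin n => if b = a then (2 : ℂ) else 1) i *
        ((fun b : Fin n => if b = a then (2 : ℂ) else 1) j)⁻¹) :
    val (F2 (N i j) D (E p q) (E r s)) (Matrix.diagonal x) = 0 := by
  obtain ⟨t, g, h, ht, hg, hh, hgh, hE, hX⟩ := torus_facts a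
  have h1 := F2_conj hF hD hgh (Matrix.diagonal x) (E p q) (E r s) i j hx
  rw [hX, hE, hE, F2_smul] at h1
  have h2 := mul_left_cancel₀ (pow_ne_zero 3 hx) h1
  have h3 : ∑ a, ∑ b, g i a * h b j * val (F2 (N a b) D (E p q) (E r s)) (Matrix.diagonal x) =
      t i * (t j)⁻¹ * val (F2 (N i j) D (E p q) (E r s)) (Matrix.diagonal x) := by
    rw [hg, hh, Finset.sum_eq_single i, Finset.sum_eq_single j]
    · rw [Matrix.diagonal_apply_eq, Matrix.diagonal_apply_eq]
    · intro b _ hb
      rw [Matrix.diagonal_apply_ne _ hb]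
      ring
    · intro h; exact absurd (Finset.mem_univ _) h
    · intro b _ hb
      refine Finset.sum_eq_zero fun c _ => ?_
      rw [Matrix.diagonal_apply_ne _ (Ne.symm hb)]
      ring
    · intro h; exact absurd (Finset.mem_univ _) h
  rw [h3] at h2
  rw [← ht] at hne
  by_contra hcon
  exact hne (mul_right_cancel₀ hcon h2)

/-- The value at a diagonal matrix is diagonal. -/
theorem diag_val {N : Fin n → Fin n → Pol n} {D : Pol n} (hF : Equivariant N D)
    (x : Fin n → ℂ) (hx : val D (Matrix.diagonal x) ≠ 0) :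
    mv N (Matrix.diagonal x) = Matrix.diagonal fun i => val (N i i) (Matrix.diagonal x) := by
  ext i j
  by_cases hij : i = j
  · subst hij
    rw [Matrix.diagonal_apply_eq]
    rfl
  · rw [Matrix.diagonal_apply_ne _ hij]
    obtain ⟨t, g, h, ht, hg, hh, hgh, hE, hX⟩ := torus_facts i
    have h1 := hF g h (Matrix.diagonal x) hgh hx (by rw [hX]; exact hx)
    unfold fn at h1
    rw [hX, mul_smul_comm, smul_mul_assoc] at h1
    have h2 := congrFun (congrFun h1 i) j
    rw [Matrix.smul_apply, Matrix.smul_apply, smul_eq_mul, smul_eq_mul] at h2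
    have h3 := mul_left_cancel₀ (inv_ne_zero hx) h2
    rw [hg, hh, Matrix.mul_diagonal, Matrix.diagonal_mul, ht] at h3
    simp only [if_true, if_neg (Ne.symm hij), inv_one, mul_one] at h3
    have h4 : mv N (Matrix.diagonal x) i j * 1 = 0 := by linear_combination -h3
    rwa [mul_one] at h4

theorem diag_mul_E (y : Fin n → ℂ) (a b : Fin n) :
    Matrix.diagonal y * E a b = y a • E a b := by
  ext c d
  rw [Matrix.diagonal_mul, Matrix.smul_apply, smul_eq_mul]
  simp only [E, Matrix.single_apply]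
  by_cases h : a = c ∧ b = d
  · obtain ⟨rfl, rfl⟩ := h
    rfl
  · rw [if_neg h]
    ring

theorem E_mul_diag (y : Fin n → ℂ) (a b : Fin n) :
    E a b * Matrix.diagonal y = y b • E a b := by
  ext c d
  rw [Matrix.mul_diagonal, Matrix.smul_apply, smul_eq_mul]
  simp only [E, Matrix.single_apply]
  by_cases h : a = c ∧ b = d
  · obtain ⟨rfl, rfl⟩ := h
    ring
  · rw [if_neg h]
    ring

theorem conj3 {i j k : Fin n} (hij : i ≠ j) (hjk : j ≠ k) (hik : i ≠ k) (α β γ : ℂ)
    (y : Fin n → ℂ) :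
    (1 + α • E i j + β • E j k + γ • E i k : Mt n) * Matrix.diagonal y *
      (1 - α • E i j - β • E j k + (α * β - γ) • E i k) =
    Matrix.diagonal y + (α * (y j - y i)) • E i j + (β * (y k - y j)) • E j k +
      ((α * β - γ) * y i - α * β * y j + γ * y k) • E i k := by
  have h1 : (1 + α • E i j + β • E j k + γ • E i k : Mt n) * Matrix.diagonal y =
      Matrix.diagonal y + (α * y j) • E i j + (β * y k) • E j k + (γ * y k) • E i k := by
    rw [add_mul, add_mul, add_mul, one_mul, smul_mul_assoc, smul_mul_assoc, smul_mul_assoc,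
      E_mul_diag, E_mul_diag, E_mul_diag, smul_smul, smul_smul, smul_smul]
  rw [h1]
  simp only [mul_add, mul_sub, add_mul, smul_mul_assoc, mul_smul_comm, E_mul, mul_one,
    diag_mul_E, if_true, if_neg hij.symm, if_neg hij, if_neg hjk, if_neg hjk.symm, if_neg hik,
    if_neg hik.symm, smul_zero]
  module

/-- the substitution of a plane of matrices -/
noncomputable def pl (X0 Y Z : Mt n) : Pol n →ₐ[ℂ] MvPolynomial (Fin 2) ℂ :=
  aeval (fun p => C (X0 p.1 p.2) + X 0 * C (Y p.1 p.2) + X 1 * C (Z p.1 p.2))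

theorem pl_eval (X0 Y Z : Mt n) (f : Pol n) (s : Fin 2 → ℂ) :
    eval s (pl X0 Y Z f) = val f (X0 + s 0 • Y + s 1 • Z) := by
  have h1 : eval s (pl X0 Y Z f) = aeval (R := ℂ) s (pl X0 Y Z f) :=
    congrArg (fun φ : MvPolynomial (Fin 2) ℂ →+* ℂ => φ (pl X0 Y Z f))
      (coe_aeval_eq_eval _).symm
  rw [h1, val_aeval, pl, comp_aeval_apply]
  congr 1
  congr 1
  funext p
  simp [Matrix.add_apply, Matrix.smul_apply]

theorem pl_zero (X0 Y Z : Mt n) (f : Pol n) : eval 0 (pl X0 Y Z f) = val f X0 := by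
  rw [pl_eval]
  simp

theorem pl_y (X0 Y Z : Mt n) (f : Pol n) : pderiv 0 (pl X0 Y Z f) = pl X0 Y Z (dd Y f) := by
  rw [chain (pderiv (R := ℂ) (0 : Fin 2)) (pl X0 Y Z) f, dd_apply, map_sum]
  refine Finset.sum_congr rfl fun p _ => ?_
  rw [map_mul]
  congr 1
  rw [pl, aeval_X, show (aeval (fun p : Fin n × Fin n => (C (X0 p.1 p.2) + X 0 * C (Y p.1 p.2) +
    X 1 * C (Z p.1 p.2) : MvPolynomial (Fin 2) ℂ))) (C (Y p.1 p.2) : Pol n) = C (Y p.1 p.2) from
    AlgHom.commutes _ _]
  rw [map_add, map_add, pderiv_C, Derivation.leibniz, Derivation.leibniz, pderiv_C, pderiv_C,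
    pderiv_X_self, pderiv_X_of_ne (by decide)]
  simp

theorem pl_z (X0 Y Z : Mt n) (f : Pol n) : pderiv 1 (pl X0 Y Z f) = pl X0 Y Z (dd Z f) := by
  rw [chain (pderiv (R := ℂ) (1 : Fin 2)) (pl X0 Y Z) f, dd_apply, map_sum]
  refine Finset.sum_congr rfl fun p _ => ?_
  rw [map_mul]
  congr 1
  rw [pl, aeval_X, show (aeval (fun p : Fin n × Fin n => (C (X0 p.1 p.2) + X 0 * C (Y p.1 p.2) +
    X 1 * C (Z p.1 p.2) : MvPolynomial (Fin 2) ℂ))) (C (Z p.1 p.2) : Pol n) = C (Z p.1 p.2) from
    AlgHom.commutes _ _]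
  rw [map_add, map_add, pderiv_C, Derivation.leibniz, Derivation.leibniz, pderiv_C, pderiv_C,
    pderiv_X_self, pderiv_X_of_ne (by decide)]
  simp

/-- The second derivatives in the directions `E i j`, `E j k` are divided differences. -/
theorem matched {N : Fin n → Fin n → Pol n} {D : Pol n} (hF : Equivariant N D) (hD : D ≠ 0)
    {x : Fin n → ℂ} (hx : val D (Matrix.diagonal x) ≠ 0) {i j k : Fin n} (hij : i ≠ j)
    (hjk : j ≠ k) (hik : i ≠ k) (dij : x i ≠ x j) (djk : x j ≠ x k) (dik : x i ≠ x k) :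
    (x i - x j) * (x i - x k) * val (F2 (N i k) D (E i j) (E j k)) (Matrix.diagonal x) =
      val D (Matrix.diagonal x) ^ 2 *
      (val (N i i) (Matrix.diagonal x) - x i * ((val (N j j) (Matrix.diagonal x) -
        val (N k k) (Matrix.diagonal x)) / (x j - x k)) -
      (val (N j j) (Matrix.diagonal x) - x j * ((val (N j j) (Matrix.diagonal x) -
        val (N k k) (Matrix.diagonal x)) / (x j - x k)))) := by
  set X0 : Mt n := Matrix.diagonal x with hX0
  set φ : Fin n → ℂ := fun i => val (N i i) X0 with hφ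
  have e1 : x j - x i ≠ 0 := sub_ne_zero.2 dij.symm
  have e2 : x k - x j ≠ 0 := sub_ne_zero.2 djk.symm
  have e3 : x k - x i ≠ 0 := sub_ne_zero.2 dik.symm
  set w : ℂ := φ i * (1 / ((x j - x i) * (x k - x j)) - 1 / ((x k - x j) * (x k - x i))) -
    φ j / ((x j - x i) * (x k - x j)) + φ k / ((x k - x j) * (x k - x i)) with hw
  have hplane : C (val D X0) * pl X0 (E i j) (E j k) (N i k) =
      pl X0 (E i j) (E j k) D * (X 0 * X 1 * C w) := by
    refine MvPolynomial.funext fun s => ?_
    rw [map_mul, map_mul, map_mul, map_mul, eval_C, eval_C, eval_X, eval_X, pl_eval, pl_eval]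
    set α : ℂ := s 0 / (x j - x i) with hα
    set β : ℂ := s 1 / (x k - x j) with hβ
    set γ : ℂ := s 0 * β / (x k - x i) with hγ
    have c1 := conj3 hij hjk hik α β γ (fun _ => (1 : ℂ))
    have c2 := conj3 hij hjk hik α β γ x
    have c3 := conj3 hij hjk hik α β γ φ
    set g : Mt n := 1 + α • E i j + β • E j k + γ • E i k with hg
    set h : Mt n := 1 - α • E i j - β • E j k + (α * β - γ) • E i k with hh
    have hgh : g * h = 1 := by
      have hone : (Matrix.diagonal (fun _ => (1 : ℂ)) : Mt n) = 1 := Matrix.diagonal_one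
      rw [hone, mul_one] at c1
      rw [c1]
      simp only [sub_self, mul_zero, zero_smul, add_zero, mul_one]
      rw [show α * β - γ - α * β + γ = 0 by ring, zero_smul, add_zero]
    have hM : g * X0 * h = X0 + s 0 • E i j + s 1 • E j k := by
      rw [hX0, c2]
      have k1 : α * (x j - x i) = s 0 := by rw [hα]; field_simp
      have k2 : β * (x k - x j) = s 1 := by rw [hβ]; field_simp
      have k3 : (α * β - γ) * x i - α * β * x j + γ * x k = 0 := by
        have k4 : (α * β - γ) * x i - α * β * x j + γ * x k =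
            -(α * (x j - x i)) * β + γ * (x k - x i) := by ring
        rw [k4, k1, hγ]
        field_simp
        ring
      rw [k1, k2, k3, zero_smul, add_zero]
    have h1 := congrArg (fun P => val P X0) (hF.poly hD hgh i k)
    simp only [val_mul, val_sb, val_gNh] at h1
    rw [hM] at h1
    rw [h1]
    congr 1
    rw [hX0, diag_val hF x hx, ← hX0]
    change (g * Matrix.diagonal φ * h) i k = _
    rw [c3, Matrix.add_apply, Matrix.add_apply, Matrix.add_apply, Matrix.diagonal_apply_ne _ hik,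
      Matrix.smul_apply, Matrix.smul_apply, Matrix.smul_apply]
    simp only [E, Matrix.single_apply, smul_eq_mul]
    rw [if_neg (fun h => hjk h.2), if_neg (fun h => hij h.1.symm), if_pos ⟨trivial, trivial⟩]
    rw [hw, hγ, hβ, hα]
    field_simp
    ring
  -- derivatives of this identity at the origin
  have hd0 := hx
  have t0 := congrArg (eval 0) hplane
  have ty := congrArg (fun P => eval 0 (pderiv 0 P)) hplane
  have tz := congrArg (fun P => eval 0 (pderiv 1 P)) hplane
  have tyz := congrArg (fun P => eval 0 (pderiv 0 (pderiv 1 P))) hplane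
  simp only [Derivation.leibniz, smul_eq_mul, pderiv_C, pl_y, pl_z, map_add, map_mul, mul_zero,
    zero_mul, add_zero, zero_add, eval_C, eval_X, Pi.zero_apply, pl_zero, pderiv_X_self,
    pderiv_X_of_ne (show (0 : Fin 2) ≠ 1 by decide), map_zero, map_one, mul_one, one_mul,
    pderiv_X_of_ne (show (1 : Fin 2) ≠ 0 by decide), pderiv_one] at t0 ty tz tyz
  have n0 : val (N i k) X0 = 0 := (mul_eq_zero.1 t0).resolve_left hd0
  have ny : val (dd (E i j) (N i k)) X0 = 0 := (mul_eq_zero.1 ty).resolve_left hd0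
  have nz : val (dd (E j k) (N i k)) X0 = 0 := (mul_eq_zero.1 tz).resolve_left hd0
  have nyz : val (dd (E i j) (dd (E j k) (N i k))) X0 = w := mul_left_cancel₀ hd0 tyz
  have hF2 : val (F2 (N i k) D (E i j) (E j k)) X0 = val D X0 ^ 2 * w := by
    have h2 : ∀ p : Pol n, val (2 * p) X0 = 2 * val p X0 := fun p => by
      rw [val_mul]; congr 1; simp [val]
    simp only [F2, val_sub, val_add, val_mul, mul_assoc, h2, n0, ny, nz, nyz]
    ring
  rw [hF2]
  change _ = val D X0 ^ 2 * (φ i - x i * ((φ j - φ k) / (x j - x k)) -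
    (φ j - x j * ((φ j - φ k) / (x j - x k))))
  have e4 : x j - x k ≠ 0 := sub_ne_zero.2 djk
  rw [hw]
  field_simp
  ring

end

end Pool.Agent.helper747_mf
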